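import Pool.Agent.MDG.Stmts

/-!
# Squad MDG, row CRS (MP_3faef8_co)

Few edges between the nodes; one low node; blobs have edges; one-element nodes are high.
-/

set_option autoImplicit false

open Finset Pool.Agent.HEC

namespace Pool.Agent.MDG.H51

variable {V : Type} [Fintype V]

/-- `cnt` is monotone along injective maps. -/
theorem cntLe {α β : Type} [Fintype α] [Fintype β] (P : α → Prop) (Q : β → Prop) (f : α → β)
    (h : ∀ a, P a → Q (f a)) (hi : ∀ a b, P a → P b → f a = f b → a = b) : cnt P ≤ cnt Q := by
  classical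
  unfold cnt
  refine Finset.card_le_card_of_injOn f ?_ ?_
  · intro a ha
    have ha' : P a := by simpa using ha
    simpa using h a ha'
  · intro a ha b hb hab
    have ha' : P a := by simpa using ha
    have hb' : P b := by simpa using hb
    exact hi a b ha' hb' hab

/-- `cnt` of a disjunction. -/
theorem cntOr {α : Type} [Fintype α] (P Q : α → Prop) :
    cnt (fun a => P a ∨ Q a) ≤ cnt P + cnt Q := by
  classical
  unfold cnt
  refine le_trans (Finset.card_le_card ?_) (Finset.card_union_le (univ.filter P) (univ.filter Q))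
  intro a ha
  simpa using ha

/-- `cnt` of a disjunction of exclusive properties. -/
theorem cntAdd {α : Type} [Fintype α] (P Q R : α → Prop) (hP : ∀ a, P a → R a)
    (hQ : ∀ a, Q a → R a) (hd : ∀ a, P a → Q a → False) : cnt P + cnt Q ≤ cnt R := by
  classical
  unfold cnt
  rw [← Finset.card_union_of_disjoint]
  · refine Finset.card_le_card ?_
    intro a ha
    rcases Finset.mem_union.1 ha with h | h
    · have h' : P a := by simpa using h
      simpa using hP a h'
    · have h' : Q a := by simpa using h
      simpa using hQ a h'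
  · refine Finset.disjoint_left.2 ?_
    intro a h1 h2
    have h1' : P a := by simpa using h1
    have h2' : Q a := by simpa using h2
    exact hd a h1' h2'

/-- Count by the values of a function. -/
theorem cntSum {α : Type} [Fintype α] (P : α → Prop) (f : α → V) :
    cnt P = ∑ w, cnt (fun a => f a = w ∧ P a) := by
  classical
  unfold cnt
  rw [Finset.card_eq_sum_card_fiberwise (f := f) (t := univ) (fun _ _ => by simp)]
  refine Finset.sum_congr rfl fun w _ => ?_
  congr 1
  ext a
  simp [and_comm]

/-- The cut of one vertex is its degree. -/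
theorem cutSing (F : SimpleGraph V) (v : V) : cut F {v} = dg F v := by
  unfold cut dg
  refine le_antisymm ?_ ?_
  · refine cntLe _ _ Prod.snd ?_ ?_
    · intro q hq
      have h1 : q.1 = v := by simpa using hq.1
      rw [← h1]
      exact hq.2.2
    · intro q r hq hr h
      have h1 : q.1 = v := by simpa using hq.1
      have h2 : r.1 = v := by simpa using hr.1
      exact Prod.ext (h1.trans h2.symm) h
  · refine cntLe _ _ (fun w => (v, w)) ?_ ?_
    · intro w hw
      refine ⟨by simp, ?_, hw⟩
      intro h
      have h' : w = v := by simpa using h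
      exact F.ne_of_adj hw h'.symm
    · intro a b _ _ h
      exact congrArg Prod.snd h

/-- The number of ordered pairs is the sum of the degrees. -/
theorem e2Sum (F : SimpleGraph V) : e2 F = ∑ v, dg F v := by
  unfold e2
  rw [cntSum (fun q : V × V => F.Adj q.1 q.2) Prod.fst]
  refine Finset.sum_congr rfl fun v _ => ?_
  unfold dg
  refine le_antisymm ?_ ?_
  · refine cntLe _ _ Prod.snd ?_ ?_
    · intro q hq
      rw [← hq.1]
      exact hq.2
    · intro q r hq hr h
      exact Prod.ext (hq.1.trans hr.1.symm) h
  · refine cntLe _ _ (fun w => (v, w)) ?_ ?_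
    · intro w hw
      exact ⟨rfl, hw⟩
    · intro a b _ _ h
      exact congrArg Prod.snd h

/-- Every cut has at most half of the ordered pairs. -/
theorem cutHalf (F : SimpleGraph V) (W : Finset V) : 2 * cut F W ≤ e2 F := by
  have h1 : cut F W ≤ cnt (fun q : V × V => q.1 ∉ W ∧ q.2 ∈ W ∧ F.Adj q.1 q.2) := by
    unfold cut
    refine cntLe _ _ Prod.swap ?_ ?_
    · intro q hq
      exact ⟨hq.2.1, hq.1, hq.2.2.symm⟩
    · intro a b _ _ h
      exact Prod.swap_injective h
  have h2 : cut F W + cnt (fun q : V × V => q.1 ∉ W ∧ q.2 ∈ W ∧ F.Adj q.1 q.2) ≤ e2 F := by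
    unfold cut e2
    refine cntAdd _ _ _ (fun q hq => hq.2.2) (fun q hq => hq.2.2) ?_
    intro q hq hr
    exact hr.1 hq.1
  omega

/-- Row CRS. -/
theorem crs (h1 : Cp5Stmt) : CrsStmt := by
  classical
  intro V _ G N p ord hdeg hpp hinj hblob hord
  have hdH : ∀ v, 5000000 ≤ dg N.H v := by
    intro v
    have h2 := (h1 V G N {v}).2.2.2.2.2
    rw [cutSing, cutSing] at h2
    have h3 := hdeg v
    omega
  refine ⟨?_, ?_, ?_, ?_⟩
  · -- few edges between the nodes
    have hE : 5000000 * Fintype.card V ≤ e2 N.H := by
      rw [e2Sum]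
      have h2 : ∑ _v : V, 5000000 ≤ ∑ v, dg N.H v := Finset.sum_le_sum fun v _ => hdH v
      have h3 : ∑ _v : V, 5000000 = 5000000 * Fintype.card V := by
        rw [Finset.sum_const, Finset.card_univ, smul_eq_mul, mul_comm]
      omega
    have hC1 : cnt (fun q : V × V => N.H.Adj q.1 q.2 ∧ ord (p q.1) < ord (p q.2)) ≤
        28000 * Fintype.card V := by
      rw [cntSum (fun q : V × V => N.H.Adj q.1 q.2 ∧ ord (p q.1) < ord (p q.2))
        (fun q : V × V => p q.1)]
      have h2 : ∑ w : V, cnt (fun q : V × V => p q.1 = w ∧ N.H.Adj q.1 q.2 ∧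
          ord (p q.1) < ord (p q.2)) ≤ ∑ _w : V, 28000 := by
        refine Finset.sum_le_sum fun w _ => ?_
        refine le_trans ?_ (le_of_lt (hord w))
        refine cntLe _ _ id ?_ ?_
        · intro q hq
          refine ⟨hq.1, hq.2.1, ?_⟩
          have h3 := hq.2.2
          rw [hq.1] at h3
          exact h3
        · intro a b _ _ h
          exact h
      have h3 : ∑ _w : V, 28000 = 28000 * Fintype.card V := by
        rw [Finset.sum_const, Finset.card_univ, smul_eq_mul, mul_comm]
      exact le_trans h2 (le_of_eq h3)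
    have hC2 : cnt (fun q : V × V => N.H.Adj q.1 q.2 ∧ ord (p q.2) < ord (p q.1)) ≤
        cnt (fun q : V × V => N.H.Adj q.1 q.2 ∧ ord (p q.1) < ord (p q.2)) := by
      refine cntLe _ _ Prod.swap ?_ ?_
      · intro q hq
        exact ⟨hq.1.symm, hq.2⟩
      · intro a b _ _ h
        exact Prod.swap_injective h
    have hC : cnt (fun q : V × V => N.H.Adj q.1 q.2 ∧ p q.1 ≠ p q.2) ≤
        cnt (fun q : V × V => N.H.Adj q.1 q.2 ∧ ord (p q.1) < ord (p q.2)) +
        cnt (fun q : V × V => N.H.Adj q.1 q.2 ∧ ord (p q.2) < ord (p q.1)) := by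
      refine le_trans ?_ (cntOr _ _)
      refine cntLe _ _ id ?_ ?_
      · intro q hq
        have h2 : ord (p q.1) ≠ ord (p q.2) := fun h => hq.2 (hinj h)
        rcases lt_or_gt_of_ne h2 with h3 | h3
        · exact Or.inl ⟨hq.1, h3⟩
        · exact Or.inr ⟨hq.1, h3⟩
      · intro a b _ _ h
        exact h
    omega
  · -- a low node
    rintro ⟨v0⟩
    obtain ⟨w, hw, hmin⟩ := Finset.exists_min_image (univ.filter fun w : V => p w = w) ord
      ⟨p v0, by simp [hpp]⟩
    have hw' : p w = w := by simpa using hw
    refine ⟨w, hw', lt_of_le_of_lt ?_ (hord w)⟩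
    unfold cut
    refine cntLe _ _ id ?_ ?_
    · intro q hq
      have h2 : p q.1 = w := by simpa [nde] using hq.1
      have h3 : p q.2 ≠ w := by simpa [nde] using hq.2.1
      refine ⟨h2, hq.2.2, ?_⟩
      have h4 : ord w ≤ ord (p q.2) := hmin (p q.2) (by simp [hpp])
      exact lt_of_le_of_ne h4 fun h => h3 (hinj h).symm
    · intro a b _ _ h
      exact h
  · -- nodes with two elements have edges
    intro w hw
    obtain ⟨v, hv⟩ : (nde p w).Nonempty := by
      rw [← Finset.card_pos]
      omega
    have hne : ({v} : Finset V) ≠ nde p w := by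
      intro h
      rw [← h, Finset.card_singleton] at hw
      omega
    have h2 := hblob w {v} (Finset.singleton_subset_iff.2 hv) (Finset.singleton_nonempty v) hne
    have h3 := cutHalf (res N.H (nde p w)) {v}
    omega
  · -- one element
    intro w hw
    obtain ⟨v, hv⟩ := Finset.card_eq_one.1 hw
    rw [hv, cutSing]
    have h2 := hdH v
    omega

end Pool.Agent.MDG.H51
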